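import Pool.Agent.Z296.AP.NarT

/-!
# Almost all tuples of linear forms: long narrow progressions with all values almost prime, many prime

For twin primes the question is whether there are arbitrarily long arithmetic progressions of integers `m`
at which both `m` and `m + 2` are prime. We prove this for almost all `k`-tuples of linear polynomials
instead of `(x, x + 2)` with primes and products of two primes instead of primes, at least `5 / 18` of the
values (and of the values with index in any given set) being prime.

A pair `(a, b)` stands for the linear polynomial `a x + b`. For every `k` and every finite set `V` of linear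
polynomials with `a ≥ 1`, for all but at most `C |V| ^ (k - η)` of the admissible `k`-tuples
`f_1, ..., f_k` of elements of `V` (`C` and `η > 0` depend only on `k`) and for EVERY nonempty set `I` of
indices there is a set `S ⊆ I` of at least `5 |I| / 18` indices such that for every length `l` there are
`l`-term progressions of integers `m` with difference at most a power of `log m` such that for all the
terms `m` every one of `f_1(m), ..., f_k(m)` is a prime or a product of two primes, and all `f_i(m)`,
`i ∈ S`, are prime; for arbitrarily large `x` there are at least `x / (log x) ^ C'` such progressions up to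
`x` with the same difference, and the prime factors are larger than `x ^ δ`.

Proof: the coloured Maynard-Tao theorem with almost primes in all the classes (`Pool.Agent.Z296.AP.thmP`),
whose points are counted with the right order of magnitude and have no small prime factors in any of the
forms, and a relative Szemeredi theorem with narrow differences for rough numbers
(`Pool.Agent.Y677.RSZ.narrow_lin`); then Erdos's box lemma with explicit exponents.
-/

set_option autoImplicit false

namespace Pool.Agent.Results.MP_a1f59e_nt.AlmostPrimeTuplesInProgressions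

open Finset Filter

/-- `m` is a prime `> y` or the product of two primes `> y` -/
def P2 (y : ℝ) (m : ℤ) : Prop :=
  ∃ p : ℕ, p.Prime ∧ y < p ∧ (m = p ∨ ∃ r : ℕ, r.Prime ∧ y < r ∧ m = p * r)

/-- the linear polynomials `f i = (a_i, b_i)`, that is `a_i x + b_i`, form an admissible family -/
def Admissible {k : ℕ} (f : Fin k → ℤ × ℤ) : Prop :=
  ∀ p : ℕ, p.Prime → ∃ n : ℤ, ∀ i, ¬ (p : ℤ) ∣ (f i).1 * n + (f i).2

/-- every `f_i(m)` is a prime `> y` or the product of two primes `> y`, and the `f_i(m)`, `i ∈ S`, are
prime -/
def Point {k : ℕ} (y : ℝ) (f : Fin k → ℤ × ℤ) (S : Finset (Fin k)) (m : ℕ) : Prop :=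
  (∀ i, P2 y ((f i).1 * m + (f i).2)) ∧ ∀ i ∈ S, ((f i).1 * (m : ℤ) + (f i).2).toNat.Prime

/-- for every nonempty set `I` of indices there is a set `S ⊆ I` of at least `5 |I| / 18` indices such that
for every `l` there is `C` such that for arbitrarily large `x` there is `1 ≤ d ≤ (log x) ^ C` such that for
at least `x / (log x) ^ C` integers `1 ≤ n ≤ x` all the terms `m` of the progression
`n, n + d, ..., n + (l - 1) d` are in `Point (x ^ δ) f S` -/
def Good {k : ℕ} (δ : ℝ) (f : Fin k → ℤ × ℤ) : Prop :=
  ∀ I : Finset (Fin k), I.Nonempty → ∃ S ⊆ I, (5 / 18 : ℝ) * I.card ≤ S.card ∧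
    ∀ l : ℕ, ∃ C : ℕ, ∃ᶠ x : ℕ in atTop, ∃ d : ℕ, 1 ≤ d ∧ (d : ℝ) ≤ Real.log x ^ C ∧
      (x : ℝ) / Real.log x ^ C ≤
        ({n : ℕ | 1 ≤ n ∧ n ≤ x ∧ ∀ j < l, Point ((x : ℝ) ^ δ) f S (n + j * d)}.ncard : ℝ)

/-- **Main theorem.** For every `k` there are `δ, η > 0` and `C` such that for every finite set `V` of
linear polynomials `a x + b` with `a ≥ 1` all but at most `C |V| ^ (k - η)` of the admissible `k`-tuples of
elements of `V` are good. -/
theorem result (k : ℕ) (hk : 1 ≤ k) : ∃ (δ η C : ℝ), 0 < δ ∧ 0 < η ∧
    ∀ V : Finset (ℤ × ℤ), (∀ f ∈ V, 1 ≤ f.1) →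
      ({f : Fin k → ℤ × ℤ | (∀ i, f i ∈ V) ∧ Admissible f ∧ ¬ Good δ f}.ncard : ℝ) ≤
        C * (V.card : ℝ) ^ ((k : ℝ) - η) := by
  classical
  obtain ⟨δ, η, C, hδ, hη, H⟩ := Pool.Agent.Z296.AP.finN k hk
  refine ⟨δ, η, C, hδ, hη, fun V hV => ?_⟩
  refine le_trans ?_ (H V hV)
  rw [Nat.cast_le]
  apply Set.ncard_le_ncard
  · rintro f ⟨h1, h2, h3⟩
    refine ⟨h1, h2, ?_⟩
    unfold Good at h3
    push Not at h3
    obtain ⟨I, hI, h4⟩ := h3
    refine ⟨I, hI, fun S hS hc => ?_⟩
    obtain ⟨l, hl⟩ := h4 S hS hc
    refine ⟨l, fun B => ?_⟩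
    filter_upwards [hl B] with x hx
    rintro ⟨d, hd1, hd2, hd3⟩
    refine absurd hd3 (not_le.2 (lt_of_eq_of_lt ?_ (hx d hd1 hd2)))
    unfold Pool.Agent.Z296.AP.cntN
    rw [← Set.ncard_coe_finset]
    congr 2
    ext n
    rw [mem_coe, mem_filter, mem_Icc, Set.mem_ofPred_eq]
    exact and_assoc
  · apply (Fintype.piFinset (fun _ : Fin k => V)).finite_toSet.subset
    rintro f ⟨hf, -⟩
    rw [mem_coe, Fintype.mem_piFinset]
    exact hf

end Pool.Agent.Results.MP_a1f59e_nt.AlmostPrimeTuplesInProgressions
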